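import Pool.Agent.H12.Uni.Gen

/-!
# Domination of linear projections
-/

open MvPolynomial Matrix H89.Hart Filter Topology

set_option linter.unusedSectionVars false

namespace H12.Uni

variable {ι : Type*} [Fintype ι] [DecidableEq ι]

/-- `f` is invariant under translations by the kernel of `L`. -/
def Inv {κ : Type*} (L : (ι → ℂ) →ₗ[ℂ] (κ → ℂ)) (f : MvPolynomial ι ℂ) : Prop :=
  ∀ z v, L v = 0 → eval (z + v) f = eval z f

theorem Inv.dif_eq {κ : Type*} {L : (ι → ℂ) →ₗ[ℂ] (κ → ℂ)} {f : MvPolynomial ι ℂ}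
    (h : Inv L f) (z : ι → ℂ) {v : ι → ℂ} (hv : L v = 0) : dif f z ⬝ᵥ v = 0 := by
  rw [← coeff_one_ln]
  have h1 : ln z v f = Polynomial.C (eval z f) := by
    apply Polynomial.funext
    intro t
    rw [eval_ln, Polynomial.eval_C]
    exact h z (t • v) (by rw [map_smul, hv, smul_zero])
  rw [h1, Polynomial.coeff_C]
  simp

theorem Inv.dd {κ : Type*} {L : (ι → ℂ) →ₗ[ℂ] (κ → ℂ)} {f : MvPolynomial ι ℂ}
    (h : Inv L f) (w : ι → ℂ) : Inv L (dd w f) := by
  intro z v hv
  rw [eval_dd, eval_dd, ← coeff_one_ln, ← coeff_one_ln]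
  congr 1
  apply Polynomial.funext
  intro t
  rw [eval_ln, eval_ln, add_right_comm]
  exact h _ v hv

theorem ln_dd (a u : ι → ℂ) (f : MvPolynomial ι ℂ) :
    (ln a u f).derivative = ln a u (dd u f) := by
  rw [derivative_ln, H89.Hart.dd, map_sum]
  refine Finset.sum_congr rfl fun i _ => ?_
  rw [map_mul]
  congr 1
  simp [ln]

theorem iterate_ln_dd (a u : ι → ℂ) (f : MvPolynomial ι ℂ) (k : ℕ) :
    Polynomial.derivative^[k] (ln a u f) = ln a u ((dd u)^[k] f) := by
  induction k generalizing f with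
  | zero => rfl
  | succ k ih => rw [Function.iterate_succ_apply, Function.iterate_succ_apply, ln_dd, ih]

theorem ln_eq_zero {a u : ι → ℂ} {f : MvPolynomial ι ℂ}
    (h : ∀ k, eval a ((dd u)^[k] f) = 0) : ln a u f = 0 := by
  ext k
  have h1 := congrArg (fun q => q.coeff 0) (iterate_ln_dd a u f k)
  simp only [coeff_zero_ln, h] at h1
  rw [Polynomial.coeff_iterate_derivative, zero_add] at h1
  rw [Polynomial.coeff_zero]
  rw [nsmul_eq_mul] at h1
  refine (mul_eq_zero.1 h1).resolve_left ?_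
  rw [Nat.descFactorial_self]
  exact_mod_cast k.factorial_ne_zero

/-- the annihilator of a subspace. -/
noncomputable def perpS (M : Submodule ℂ (ι → ℂ)) : Submodule ℂ (ι → ℂ) where
  carrier := {s | ∀ v ∈ M, s ⬝ᵥ v = 0}
  add_mem' {a b} ha hb v hv := by rw [add_dotProduct, ha v hv, hb v hv, add_zero]
  zero_mem' v _ := zero_dotProduct v
  smul_mem' c s hs v hv := by rw [smul_dotProduct, hs v hv, smul_zero]

theorem finrank_perpS (M : Submodule ℂ (ι → ℂ)) :
    Module.finrank ℂ (perpS M) + Module.finrank ℂ M = Fintype.card ι :=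
  finrank_perp M (perpS M) fun v => by
    constructor
    · intro h w hw
      rw [dotProduct_comm]; exact h w hw
    · intro h w hw
      rw [dotProduct_comm]; exact h w hw

/-- the tangent argument at one point. -/
theorem dom_point {r : ℕ} {P : Ideal (MvPolynomial ι ℂ)} (hP : P.IsPrime)
    (M : Submodule ℂ (ι → ℂ)) (hPM : ∀ z ∈ cone P, z ∈ M)
    (hdim : (Module.finrank ℂ M : WithBot ℕ∞) ≤ ringKrullDim (MvPolynomial ι ℂ ⧸ P) + r)
    {κ : Type*} (L : (ι → ℂ) →ₗ[ℂ] (κ → ℂ)) {g : Fin r → MvPolynomial ι ℂ} (hg : ∀ i, g i ∈ P)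
    {u : Fin r → ι → ℂ} (huM : ∀ j, u j ∈ M) (huL : ∀ j, L (u j) = 0) {x : ι → ℂ}
    (hx : x ∈ cone P) (hdet : (matAt g u x).det ≠ 0) {f : MvPolynomial ι ℂ} (hf : f ∈ P)
    (hfL : Inv L f) {w : ι → ℂ} (hw : w ∈ M) : dif f x ⬝ᵥ w = 0 := by
  by_contra hne
  let b := Module.finBasis ℂ (perpS M)
  have hbM : ∀ k, ∀ v ∈ M, (b k : ι → ℂ) ⬝ᵥ v = 0 := fun k v hv => (b k).2 v hv
  have hbP : ∀ k, lf (b k : ι → ℂ) ∈ P := fun k => by
    apply mem_of_cone hP
    intro z hz
    rw [eval_lf]
    exact hbM k z (hPM z hz)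
  let h : Option (Fin r ⊕ Fin (Module.finrank ℂ (perpS M))) → MvPolynomial ι ℂ := fun o =>
    o.elim f (Sum.elim g fun k => lf (b k : ι → ℂ))
  have hh : ∀ c, h c ∈ P := by
    rintro (_ | i | k)
    exacts [hf, hg i, hbP k]
  have hli : LinearIndependent ℂ (fun c => dif (h c) x) := by
    rw [Fintype.linearIndependent_iff]
    intro c hc
    rw [Fintype.sum_option, Fintype.sum_sum_type] at hc
    simp only [h, Option.elim, Sum.elim_inl, Sum.elim_inr, dif_lf] at hc
    have hb : ∀ i, c (some (Sum.inl i)) = 0 := by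
      have h1 : Matrix.vecMul (fun i => c (some (Sum.inl i))) (matAt g u x) = 0 := by
        funext j
        have := congrArg (fun v => v ⬝ᵥ u j) hc
        simp only [add_dotProduct, sum_dotProduct, smul_dotProduct, zero_dotProduct, smul_eq_mul,
          hfL.dif_eq x (huL j), hbM _ _ (huM j), mul_zero, Finset.sum_const_zero, add_zero,
          zero_add] at this
        simpa [Matrix.vecMul, dotProduct, matAt] using this
      exact congrFun (Matrix.eq_zero_of_vecMul_eq_zero hdet h1)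
    simp only [hb, zero_smul, Finset.sum_const_zero, zero_add] at hc
    have ha : c none = 0 := by
      have := congrArg (fun v => v ⬝ᵥ w) hc
      simp only [add_dotProduct, sum_dotProduct, smul_dotProduct, zero_dotProduct, smul_eq_mul,
        hbM _ _ hw, mul_zero, Finset.sum_const_zero, add_zero] at this
      exact (mul_eq_zero.1 this).resolve_right hne
    rw [ha, zero_smul, zero_add] at hc
    have hbi : LinearIndependent ℂ (fun k => (b k : ι → ℂ)) :=
      b.linearIndependent.map' (perpS M).subtype (perpS M).ker_subtype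
    have hk := Fintype.linearIndependent_iff.1 hbi (fun k => c (some (Sum.inr k))) hc
    rintro (_ | i | k)
    exacts [ha, hb i, hk k]
  have h4 := dim_add_le P hP x hx h hh hli
  rw [Fintype.card_option, Fintype.card_sum, Fintype.card_fin, Fintype.card_fin] at h4
  have h5 := finrank_perpS M
  obtain ⟨d, hd⟩ := exists_dim hP
  rw [hd] at h4 hdim
  have h6 : d + (r + Module.finrank ℂ (perpS M) + 1) ≤ Fintype.card ι := by exact_mod_cast h4
  have h7 : Module.finrank ℂ M ≤ d + r := by exact_mod_cast hdim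
  omega

/-- **(DOM)** -/
theorem dom {I : Ideal (MvPolynomial ι ℂ)} {r : ℕ} (hI : Smooth I r)
    {P : Ideal (MvPolynomial ι ℂ)} (hP : P.IsPrime) (hIP : I ≤ P) (M : Submodule ℂ (ι → ℂ))
    (hPM : ∀ z ∈ cone P, z ∈ M)
    (hdim : (Module.finrank ℂ M : WithBot ℕ∞) ≤ ringKrullDim (MvPolynomial ι ℂ ⧸ P) + r)
    {κ : Type*} [Fintype κ] [DecidableEq κ] (L : (ι → ℂ) →ₗ[ℂ] (κ → ℂ)) {p : ι → ℂ}
    (hp : p ∈ cone P) (hp0 : p ≠ 0)
    (hNp : ∀ s ∈ N I p, (∀ v ∈ M, L v = 0 → s ⬝ᵥ v = 0) → s = 0)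
    {g : MvPolynomial κ ℂ} (hg : ∀ z ∈ cone P, eval (L z) g = 0) :
    ∀ w ∈ M, eval (L w) g = 0 := by
  have hpI : p ∈ cone I := cone_anti hIP hp
  obtain ⟨g', l, hg', -, hli, -⟩ := exists_frame hI hpI hp0
  -- a frame with dual vectors in `M ∩ ker L`
  let Z : Submodule ℂ (ι → ℂ) := M ⊓ LinearMap.ker L
  let φ : Z →ₗ[ℂ] (Fin r → ℂ) :=
    { toFun := fun v i => dif (g' i) p ⬝ᵥ (v : ι → ℂ)
      map_add' := fun v v' => by funext i; simp [dotProduct_add]
      map_smul' := fun c v => by funext i; simp [dotProduct_smul] }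
  have hφ : LinearMap.range φ = ⊤ := by
    by_contra hne
    obtain ⟨f, hf0, hf⟩ := Submodule.exists_le_ker_of_lt_top _ (lt_top_iff_ne_top.2 hne)
    apply hf0
    have hfv : ∀ y : Fin r → ℂ, f y = ∑ i, f (Pi.single i 1) * y i := by
      intro y
      conv_lhs => rw [show y = ∑ k, y k • (Pi.single k (1 : ℂ) : Fin r → ℂ) from by
        funext m; simp [Finset.sum_apply, Pi.single_apply]]
      rw [map_sum]
      simp [mul_comm]
    have h1 : ∑ i, f (Pi.single i 1) • dif (g' i) p = 0 := by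
      refine hNp _ (Submodule.sum_mem _ fun i _ => Submodule.smul_mem _ _
        (mem_N.2 ⟨g' i, hg' i, rfl⟩)) fun v hv hLv => ?_
      have h2 : f (φ ⟨v, hv, hLv⟩) = 0 := hf ⟨_, rfl⟩
      rw [hfv] at h2
      rw [sum_dotProduct]
      simpa [smul_dotProduct, φ] using h2
    have h3 := Fintype.linearIndependent_iff.1 hli _ h1
    refine LinearMap.ext fun y => ?_
    rw [hfv]
    simp [h3]
  have hu : ∀ j, ∃ v : Z, φ v = Pi.single j 1 := fun j => by
    have : (Pi.single j 1 : Fin r → ℂ) ∈ LinearMap.range φ := by rw [hφ]; trivial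
    exact this
  choose u hu using hu
  have hmat : matAt g' (fun j => (u j : ι → ℂ)) p = 1 := by
    ext i j
    have h1 := congrFun (hu j) i
    rw [matAt, Matrix.of_apply, Matrix.one_apply]
    have h2 : dif (g' i) p ⬝ᵥ (u j : ι → ℂ) = φ (u j) i := rfl
    rw [h2, h1, Pi.single_apply]
  have hD : (mat g' (fun j => (u j : ι → ℂ))).det ∉ P := by
    intro hm
    have h1 := hp _ hm
    rw [eval_det_mat, hmat] at h1
    simp at h1
  have hstep : ∀ f ∈ P, Inv L f → ∀ w ∈ M, dd w f ∈ P ∧ Inv L (dd w f) := by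
    intro f hf hfL w hw
    refine ⟨?_, hfL.dd w⟩
    have key : (mat g' (fun j => (u j : ι → ℂ))).det * dd w f ∈ P := by
      apply mem_of_cone hP
      intro z hz
      rw [map_mul, eval_det_mat, eval_dd]
      by_cases hd : (matAt g' (fun j => (u j : ι → ℂ)) z).det = 0
      · rw [hd, zero_mul]
      · rw [dom_point hP M hPM hdim L (fun i => hIP (hg' i)) (fun j => (u j).2.1)
          (fun j => (u j).2.2) hz hd hf hfL hw, mul_zero]
    exact (hP.mem_or_mem key).resolve_left hD
  -- the pull back of `g`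
  set f := bind₁ (linP L) g with hf
  have hev : ∀ z, eval z f = eval (L z) g := fun z => by rw [hf, eval_bind, ev_linP]
  have hfP : f ∈ P := mem_of_cone hP fun z hz => by rw [hev]; exact hg z hz
  have hfL : Inv L f := fun z v hv => by rw [hev, hev, map_add, hv, add_zero]
  intro w hw
  have hwp : w - p ∈ M := Submodule.sub_mem _ hw (hPM p hp)
  have hall : ∀ k, (dd (w - p))^[k] f ∈ P ∧ Inv L ((dd (w - p))^[k] f) := by
    intro k
    induction k with
    | zero => exact ⟨hfP, hfL⟩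
    | succ k ih =>
      rw [Function.iterate_succ_apply']
      exact hstep _ ih.1 ih.2 _ hwp
  have h0 : ln p (w - p) f = 0 := ln_eq_zero fun k => hp _ (hall k).1
  have h1 := eval_ln p (w - p) f 1
  rw [h0, Polynomial.eval_zero, one_smul, add_sub_cancel] at h1
  rw [← hev, ← h1]

end H12.Uni
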