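import Pool.Agent.H34.Uni.Gap
import Pool.Agent.H12.Uni.Star

/-!
# Section 3c: `rk A m ≥ r + 1`, `2 rk A m + 2 r ≤ N`
-/

open MvPolynomial Matrix H89.Hart Filter Topology

set_option linter.unusedSectionVars false

namespace H12.Uni

variable {ι : Type*} [Fintype ι] [DecidableEq ι]

/-- dual vectors in a subspace. -/
theorem exists_dual_in {r : ℕ} (M : Submodule ℂ (ι → ℂ)) (s : Fin r → ι → ℂ)
    (hs : ∀ c : Fin r → ℂ, (∀ v ∈ M, (∑ i, c i • s i) ⬝ᵥ v = 0) → c = 0) :
    ∃ u : Fin r → ι → ℂ, (∀ j, u j ∈ M) ∧ ∀ i j, s i ⬝ᵥ u j = if i = j then 1 else 0 := by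
  let φ : M →ₗ[ℂ] (Fin r → ℂ) :=
    { toFun := fun v i => s i ⬝ᵥ (v : ι → ℂ)
      map_add' := fun v v' => by funext i; simp [dotProduct_add]
      map_smul' := fun c v => by funext i; simp [dotProduct_smul] }
  have hφ : LinearMap.range φ = ⊤ := by
    by_contra hne
    obtain ⟨f, hf0, hf⟩ := Submodule.exists_le_ker_of_lt_top _ (lt_top_iff_ne_top.2 hne)
    apply hf0
    have hfv : ∀ y : Fin r → ℂ, f y = ∑ i, f (Pi.single i 1) * y i := by
      intro y
      conv_lhs => rw [show y = ∑ k, y k • (Pi.single k (1 : ℂ) : Fin r → ℂ) from by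
        funext m; simp [Finset.sum_apply, Pi.single_apply]]
      rw [map_sum]
      simp [mul_comm]
    have h1 : (fun i => f (Pi.single i 1)) = 0 := by
      refine hs _ fun v hv => ?_
      have h2 : f (φ ⟨v, hv⟩) = 0 := hf ⟨_, rfl⟩
      rw [hfv] at h2
      rw [sum_dotProduct]
      simpa [smul_dotProduct, φ] using h2
    refine LinearMap.ext fun y => ?_
    rw [hfv]
    simp [fun i => congrFun h1 i]
  have hu : ∀ j, ∃ v : M, φ v = Pi.single j 1 := fun j => by
    have : (Pi.single j 1 : Fin r → ℂ) ∈ LinearMap.range φ := by rw [hφ]; trivial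
    exact this
  choose u hu using hu
  refine ⟨fun j => (u j : ι → ℂ), fun j => (u j).2, fun i j => ?_⟩
  have h1 : s i ⬝ᵥ (u j : ι → ℂ) = φ (u j) i := rfl
  rw [h1, hu j, Pi.single_apply]

section hom

variable {r : ℕ} {g : Fin r → MvPolynomial ι ℂ} {d : Fin r → ℕ}

theorem PvP_homog (l : Fin r → ι → ℂ) (hg : ∀ i, (g i).IsHomogeneous (d i)) (v : ι → ℂ) (k : ι) :
    (PvP g l v k).IsHomogeneous (∑ i, (d i - 1)) := by
  rw [PvP]
  refine IsHomogeneous.sub ?_ ?_
  · have := (mat_det_homog l hg).mul (isHomogeneous_C ι (v k))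
    rwa [add_zero] at this
  · refine IsHomogeneous.sum _ _ _ fun i _ => IsHomogeneous.sum _ _ _ fun j _ => ?_
    have h1 := ((dd_homog (v := v) (hg i)).mul (mat_adj_homog l hg j i)).mul
      (isHomogeneous_C ι (l j k))
    have h3 : (d i - 1) + (∑ k, if k = i then 0 else (d k - 1)) + 0 = ∑ i, (d i - 1) := by
      have h4 : ∑ k, (d k - 1) = ∑ k, ((if k = i then 0 else (d k - 1)) +
          (if k = i then (d i - 1) else 0)) := by
        refine Finset.sum_congr rfl fun k _ => ?_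
        split_ifs with hk
        · rw [hk, zero_add]
        · rw [add_zero]
      rw [h4, Finset.sum_add_distrib]
      simp [add_comm]
    rwa [h3] at h1

theorem etaP_homog (A : Matrix ι ι ℂ) (m : ℕ) (l : Fin r → ι → ℂ)
    (hg : ∀ i, (g i).IsHomogeneous (d i)) (v : ι → ℂ) (k : ι) :
    (etaP A m g l v k).IsHomogeneous (∑ i, (d i - 1)) := by
  refine IsHomogeneous.sum _ _ _ fun j _ => ?_
  have := (isHomogeneous_C ι ((A ^ m) k j)).mul (PvP_homog l hg v j)
  rwa [zero_add] at this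

theorem eta_homog_smul (A : Matrix ι ι ℂ) (m : ℕ) (l : Fin r → ι → ℂ)
    (hg : ∀ i, (g i).IsHomogeneous (d i)) (v : ι → ℂ) (c : ℂ) (y : ι → ℂ) :
    eta A m g l v (c • y) = c ^ (∑ i, (d i - 1)) • eta A m g l v y := by
  funext k
  rw [← eval_etaP, Pi.smul_apply, ← eval_etaP, smul_eq_mul]
  exact eval_smul_homog (etaP_homog A m l hg v k) c y

theorem deta_homog_smul (A : Matrix ι ι ℂ) (m : ℕ) (l : Fin r → ι → ℂ)
    (hg : ∀ i, (g i).IsHomogeneous (d i)) (v : ι → ℂ) (c : ℂ) (y s : ι → ℂ) :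
    deta A m g l v (c • y) s = c ^ (∑ i, (d i - 1) - 1) • deta A m g l v y s := by
  have h1 : (∑ k, C (s k) * etaP A m g l v k).IsHomogeneous (∑ i, (d i - 1)) := by
    refine IsHomogeneous.sum _ _ _ fun k _ => ?_
    have := (isHomogeneous_C ι (s k)).mul (etaP_homog A m l hg v k)
    rwa [zero_add] at this
  funext k
  rw [deta, dif, Pi.smul_apply, deta, dif, smul_eq_mul]
  exact eval_smul_homog h1.pderiv c y

end hom

theorem tendsto_deta (A : Matrix ι ι ℂ) (m : ℕ) {r : ℕ} (g : Fin r → MvPolynomial ι ℂ)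
    (l : Fin r → ι → ℂ) (v : ι → ℂ) {α : Type*} {F : Filter α} {y s : α → ι → ℂ} {y₀ s₀ : ι → ℂ}
    (hy : Tendsto y F (𝓝 y₀)) (hs : Tendsto s F (𝓝 s₀)) :
    Tendsto (fun a => deta A m g l v (y a) (s a)) F (𝓝 (deta A m g l v y₀ s₀)) := by
  simp only [deta_eq]
  refine tendsto_finsetSum _ fun k _ => ?_
  have h1 : Tendsto (fun a => s a k) F (𝓝 (s₀ k)) := (tendsto_pi_nhds.1 hs) k
  exact h1.smul (((continuous_dif _).tendsto _).comp hy)

theorem tendsto_eta (A : Matrix ι ι ℂ) (m : ℕ) {r : ℕ} (g : Fin r → MvPolynomial ι ℂ)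
    (l : Fin r → ι → ℂ) (v : ι → ℂ) {α : Type*} {F : Filter α} {y : α → ι → ℂ} {y₀ : ι → ℂ}
    (hy : Tendsto y F (𝓝 y₀)) :
    Tendsto (fun a => eta A m g l v (y a)) F (𝓝 (eta A m g l v y₀)) := by
  rw [tendsto_pi_nhds]
  intro k
  simp only [← eval_etaP]
  exact ((MvPolynomial.continuous_eval _).tendsto _).comp hy

section main

variable {I : Ideal (MvPolynomial ι ℂ)} {r : ℕ} {A : Matrix ι ι ℂ} {m : ℕ}

/-- `T_p + ker A ^ m = V` if `N_p` meets `im B ^ m` in `0`. -/
theorem exists_tangent {p : ι → ℂ} (h : ∀ s ∈ N I p, s ∈ imB A m → s = 0)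
    (u : ι → ℂ) : ∃ v ∈ T I p, A ^ m *ᵥ v = A ^ m *ᵥ u := by
  have htop : T I p ⊔ kerA A m = ⊤ := by
    by_contra hne
    obtain ⟨f, hf0, hf⟩ := Submodule.exists_le_ker_of_lt_top _ (lt_top_iff_ne_top.2 hne)
    apply hf0
    let s : ι → ℂ := fun i => f (Pi.single i 1)
    have hs : ∀ v, s ⬝ᵥ v = f v := by
      intro v
      conv_rhs => rw [show v = ∑ k, v k • (Pi.single k (1 : ℂ) : ι → ℂ) from by
        funext m; simp [Finset.sum_apply, Pi.single_apply]]
      rw [map_sum]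
      simp [dotProduct, s, mul_comm]
    have h1 : s ∈ N I p := by
      rw [mem_N_iff_T]
      intro v hv
      rw [hs]
      exact hf (Submodule.mem_sup_left hv)
    have h2 : s ∈ imB A m := by
      rw [mem_imB_iff]
      intro v hv
      rw [hs]
      exact hf (Submodule.mem_sup_right (mem_kerA.2 hv))
    have h6 := h _ h1 h2
    refine LinearMap.ext fun v => ?_
    rw [← hs, h6]
    simp
  have hu : u ∈ T I p ⊔ kerA A m := by rw [htop]; trivial
  obtain ⟨v, hv, k, hk, rfl⟩ := Submodule.mem_sup.1 hu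
  refine ⟨v, hv, ?_⟩
  rw [mulVec_add, mem_kerA.1 hk, add_zero]

/-- a line in the cone is tangent. -/
theorem mem_T_of_line {p w : ι → ℂ} (h : ∀ c : ℂ, p + c • w ∈ cone I) : w ∈ T I p := by
  intro s hs
  obtain ⟨f, hf, rfl⟩ := mem_N.1 hs
  have h1 : ln p w f = 0 := Polynomial.funext fun t => by
    rw [eval_ln, h t f hf, Polynomial.eval_zero]
  rw [← coeff_one_ln, h1, Polynomial.coeff_zero]

theorem UniSetup.two_le_degree (U : UniSetup I r A m) {f : MvPolynomial ι ℂ} (hf : f ∈ I) {e : ℕ}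
    (he : f.IsHomogeneous e) {y : ι → ℂ} (hne : dif f y ≠ 0) : 2 ≤ e := by
  by_contra hlt
  push Not at hlt
  have h0 : e - 1 = 0 := by omega
  have h3 : ∀ k x, eval x (pderiv k f) = eval 0 (pderiv k f) := by
    intro k x
    have h4 : (pderiv k f).IsHomogeneous 0 := by
      have := he.pderiv (i := k)
      rwa [h0] at this
    have h5 := eval_smul_homog h4 0 x
    rw [zero_smul, pow_zero, one_mul] at h5
    exact h5.symm
  have hconst : ∀ x, dif f x = dif f y := by
    intro x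
    funext k
    change eval x (pderiv k f) = eval y (pderiv k f)
    rw [h3 k x, h3 k y]
  apply hne
  apply U.nd
  intro x hx
  rw [← hconst x]
  exact dot_self U.smooth hx (mem_N.2 ⟨_, hf, rfl⟩)

/-- (3c), existence of `κ`. -/
theorem UniSetup.exists_kappa (U : UniSetup I r A m) (hS : Star I A m) (h1 : r + 1 ≤ rk A m)
    {p : ι → ℂ} (hp : p ∈ cone I) (hp0 : p ≠ 0) (hpK : A ^ m *ᵥ p = 0)
    (hpN : ∀ s ∈ N I p, s ∈ imB A m → s = 0) {w : ι → ℂ} (hw : w ∈ imA A m) (hw0 : w ≠ 0) :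
    (∀ c : ℂ, p + c • w ∈ cone I) ∧
    ∀ g : Fin r → MvPolynomial ι ℂ, (∀ i, g i ∈ I) → (∀ s ∈ N I p, ∀ w' ∈ imA A m, s ⬝ᵥ w' = 0) →
      ∀ z : Fin r → ℂ, ∃ κ ∈ imB A m, ∀ c : ℂ, p + c • w ≠ 0 →
        sz g z p + c • κ ∈ N I (p + c • w) := by
  -- `y' ∈ U_w`
  have hfin := U.finrank_Uw hS hw hw0
  have hUne : Uw I A m w ≠ ⊥ := by
    intro h0
    rw [h0, finrank_bot] at hfin
    omega
  obtain ⟨y, hy, hy0⟩ := Submodule.exists_mem_ne_zero_of_ne_bot hUne
  obtain ⟨v₀, hv₀T, hv₀⟩ := hy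
  have hv₀' : A ^ m *ᵥ v₀ = y := hv₀
  have hyW : y ∈ imA A m := mem_imA.2 ⟨v₀, hv₀'⟩
  have hyI : y ∈ cone I := U.im_mem hS y hyW
  obtain ⟨v', hv', hv'w⟩ : w ∈ Uw I A m y := U.symm hS hw hw0 hy0 ⟨v₀, hv₀T, hv₀⟩
  have hv'w' : A ^ m *ᵥ v' = w := hv'w
  obtain ⟨v, hv, hvy⟩ := exists_tangent hpN v₀
  rw [hv₀'] at hvy
  -- frame at `y`
  obtain ⟨g', l', hg', hgh, hli', hmat'⟩ := exists_frame U.smooth hyI hy0
  choose d hd using hgh
  have hdet' : (matAt g' l' y).det ≠ 0 := by rw [hmat']; simp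
  set D := ∑ i, (d i - 1) with hD
  have hηy : eta A m g' l' v' y = w := by
    rw [eta, Pv_self g' hg' l' hmat' hv', hv'w']
  -- the degree is positive
  have hDpos : 1 ≤ D := by
    have hr : 0 < r := by have := U.two_le; omega
    have hne0 : dif (g' ⟨0, hr⟩) y ≠ 0 := fun h0 => by
      have h6 := Fintype.linearIndependent_iff.1 hli' (Pi.single ⟨0, hr⟩ 1) (by
        rw [Finset.sum_eq_single ⟨0, hr⟩]
        · rw [h0, smul_zero]
        · intro i _ hi
          rw [Pi.single_eq_of_ne hi, zero_smul]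
        · intro hi
          exact absurd (Finset.mem_univ _) hi) ⟨0, hr⟩
      rw [Pi.single_eq_same] at h6
      exact one_ne_zero h6
    have hi : 2 ≤ d ⟨0, hr⟩ := U.two_le_degree (hg' _) (hd _) hne0
    have h2 : d ⟨0, hr⟩ - 1 ≤ D := by
      rw [hD]
      exact Finset.single_le_sum (f := fun i => d i - 1) (fun i _ => Nat.zero_le _)
        (Finset.mem_univ _)
    omega
  -- the arc
  obtain ⟨χ, hχ0, hχd, hχ⟩ := arc U.smooth hp hp0
  have hx : HasDerivAt (fun ε : ℂ => χ (ε • v)) v 0 := by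
    have h1 : HasDerivAt (fun ε : ℂ => ε • v) v 0 := by
      simpa using (hasDerivAt_id (0 : ℂ)).smul_const v
    have h2 : HasFDerivAt χ (ContinuousLinearMap.id ℂ (ι → ℂ)) ((fun ε : ℂ => ε • v) 0) := by
      simpa using hχd.hasFDerivAt
    exact h2.comp_hasDerivAt (0 : ℂ) h1
  have hxc : ∀ᶠ ε : ℂ in 𝓝[≠] 0, χ (ε • v) ∈ cone I := by
    have h1 : Tendsto (fun ε : ℂ => ε • v) (𝓝[≠] 0) (𝓝 0) := by
      have : Continuous fun ε : ℂ => ε • v := by fun_prop
      exact (by simpa using this.tendsto 0 : Tendsto (fun ε : ℂ => ε • v) (𝓝 0) (𝓝 0)).mono_left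
        nhdsWithin_le_nhds
    filter_upwards [h1.eventually hχ] with ε hε
    exact hε (Submodule.smul_mem _ _ hv)
  have hne : ∀ᶠ ε : ℂ in 𝓝[≠] 0, ε ≠ 0 := eventually_mem_nhdsWithin
  have hv'' : Tendsto (fun ε : ℂ => ε⁻¹ • (χ (ε • v) - p)) (𝓝[≠] 0) (𝓝 v) := by
    have h1 := hasDerivAt_iff_tendsto_slope_zero.1 hx
    refine h1.congr fun a => ?_
    simp [hχ0]
  have hyε : Tendsto (fun ε : ℂ => A ^ m *ᵥ (ε⁻¹ • (χ (ε • v) - p))) (𝓝[≠] 0) (𝓝 y) := by
    rw [← hvy]
    have hcont : Continuous fun x : ι → ℂ => A ^ m *ᵥ x :=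
      (LinearMap.continuous_of_finiteDimensional (A ^ m).mulVecLin)
    exact (hcont.tendsto v).comp hv''
  have hAx : ∀ ε : ℂ, ε ≠ 0 →
      A ^ m *ᵥ χ (ε • v) = ε • (A ^ m *ᵥ (ε⁻¹ • (χ (ε • v) - p))) := by
    intro ε hε
    rw [mulVec_smul, smul_smul, mul_inv_cancel₀ hε, one_smul, mulVec_sub, hpK, sub_zero]
  have hxp : Tendsto (fun ε : ℂ => χ (ε • v)) (𝓝[≠] 0) (𝓝 p) := by
    have h1 := hx.continuousAt.tendsto
    simp only [zero_smul, hχ0] at h1
    exact h1.mono_left nhdsWithin_le_nhds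
  -- the limit of the points
  have hpt : ∀ c : ℂ, Tendsto (fun ε : ℂ => χ (ε • v) +
      (c * (ε ^ D)⁻¹) • eta A m g' l' v' (A ^ m *ᵥ χ (ε • v))) (𝓝[≠] 0) (𝓝 (p + c • w)) := by
    intro c
    have h1 := hxp.add ((tendsto_eta A m g' l' v' hyε).const_smul c)
    rw [hηy] at h1
    refine h1.congr' ?_
    filter_upwards [hne] with ε hε
    rw [hAx ε hε, eta_homog_smul A m l' hd, smul_smul, mul_assoc,
      inv_mul_cancel₀ (pow_ne_zero _ hε), mul_one]
  have hcone : ∀ c : ℂ, p + c • w ∈ cone I := by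
    intro c
    refine (isClosed_cone I).mem_of_tendsto (hpt c) ?_
    filter_upwards [hxc] with ε h2
    exact U.flow g' hg' l' hyI hy0 hdet' v' h2 _
  refine ⟨hcone, fun g hg hW z => ?_⟩
  have hsW : ∀ w ∈ imA A m, sz g z p ⬝ᵥ w = 0 := hW _ (sz_mem hg z p)
  refine ⟨-(deta A m g' l' v' y (Hz g z p v) ᵥ* A ^ m), Submodule.neg_mem _ (mem_imB.2 ⟨_, rfl⟩),
    fun c hc => ?_⟩
  have hs := hasDerivAt_sz g z hx
  have hh' : Tendsto (fun ε : ℂ => ε⁻¹ • (sz g z (χ (ε • v)) - sz g z p)) (𝓝[≠] 0)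
      (𝓝 (Hz g z p v)) := by
    have h1 := hasDerivAt_iff_tendsto_slope_zero.1 hs
    simp only [zero_smul, hχ0] at h1
    refine h1.congr fun a => ?_
    simp
  have hsp : Tendsto (fun ε : ℂ => sz g z (χ (ε • v))) (𝓝[≠] 0) (𝓝 (sz g z p)) := by
    have h1 := hs.continuousAt.tendsto
    simp only [zero_smul, hχ0] at h1
    exact h1.mono_left nhdsWithin_le_nhds
  have hcn : Tendsto (fun ε : ℂ => sz g z (χ (ε • v)) - (c * (ε ^ D)⁻¹) •
      (deta A m g' l' v' (A ^ m *ᵥ χ (ε • v)) (sz g z (χ (ε • v))) ᵥ* A ^ m)) (𝓝[≠] 0)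
      (𝓝 (sz g z p + c • -(deta A m g' l' v' y (Hz g z p v) ᵥ* A ^ m))) := by
    have hcont : Continuous fun x : ι → ℂ => x ᵥ* A ^ m :=
      (LinearMap.continuous_of_finiteDimensional (A ^ m).vecMulLinear)
    have h2 := hsp.sub (((hcont.tendsto _).comp
      (tendsto_deta A m g' l' v' hyε hh')).const_smul c)
    rw [smul_neg, ← sub_eq_add_neg]
    refine h2.congr' ?_
    filter_upwards [hne] with ε hε
    congr 1
    rw [hAx ε hε, deta_homog_smul A m l' hd, smul_vecMul, smul_smul]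
    have h3 : sz g z (χ (ε • v)) = sz g z p + ε • (ε⁻¹ • (sz g z (χ (ε • v)) - sz g z p)) := by
      rw [smul_smul, mul_inv_cancel₀ hε, one_smul, add_sub_cancel]
    conv_rhs => rw [h3, deta_add_right, deta_eq_zero A m g' l' v' _ hsW, zero_add, deta_smul_right,
      smul_vecMul, smul_smul]
    congr 1
    rw [← hD]
    obtain ⟨D', hD'⟩ : ∃ D', D = D' + 1 := ⟨D - 1, by omega⟩
    rw [hD', Nat.add_sub_cancel, pow_succ]
    field_simp
  refine (mem_N_of_tendsto U.smooth hc (hpt c) hcn ?_).2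
  filter_upwards [hxc] with ε h2
  exact ⟨U.flow g' hg' l' hyI hy0 hdet' v' h2 _,
    U.flow_N g' hg' l' hyI hy0 hdet' v' h2 (sz_mem hg z _) _⟩

/-- (3c) -/
theorem UniSetup.end1 (U : UniSetup I r A m) (hS : Star I A m) (h1 : r + 1 ≤ rk A m)
    (h2 : 2 * rk A m + 2 * r ≤ Fintype.card ι) : False := by
  have hr2 := U.two_le
  have hM := finrank_kerA A m
  obtain ⟨P, hP, hPh, hIP, hPK, hdim⟩ := exists_F U.smooth U.dim_le (kerA A m) (by omega)
  obtain ⟨h, hhP, hh⟩ := zm U.smooth (by omega) U.nd hP hPh LinearMap.id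
    (fun u hu => cone_anti hIP hu) (imB A m) (le_dim_of hdim (by
      rw [LinearMap.ker_id, finrank_bot, finrank_imB]; omega))
  obtain ⟨p, hpP, hph⟩ := exists_of_not_mem hP hhP
  have hp : p ∈ cone I := cone_anti hIP hpP
  have hpK : A ^ m *ᵥ p = 0 := mem_kerA.1 (hPK p hpP)
  obtain ⟨hp0, hpN⟩ : p ≠ 0 ∧ ∀ s ∈ N I p, s ∈ imB A m → s = 0 := hh p hpP hph
  obtain ⟨g, -, hg, -, hli, -⟩ := exists_frame U.smooth hp hp0
  -- the image of `A ^ m` is tangent at `p`
  have hW : ∀ s ∈ N I p, ∀ w' ∈ imA A m, s ⬝ᵥ w' = 0 := by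
    intro s hs w' hw'
    by_cases hw0 : w' = 0
    · rw [hw0, dotProduct_zero]
    · exact mem_T_of_line (U.exists_kappa hS h1 hp hp0 hpK hpN hw' hw0).1 s hs
  -- dual vectors in the kernel of `A ^ m`
  obtain ⟨l, hlK, hl⟩ := exists_dual_in (kerA A m) (fun i => dif (g i) p) (by
    intro c hc
    have h3 : ∑ i, c i • dif (g i) p = 0 := by
      refine hpN _ (Submodule.sum_mem _ fun i _ => Submodule.smul_mem _ _
        (mem_N.2 ⟨g i, hg i, rfl⟩)) ?_
      rw [mem_imB_iff]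
      exact fun v hv => hc v (mem_kerA.2 hv)
    exact funext (Fintype.linearIndependent_iff.1 hli c h3))
  have hmat : matAt g l p = 1 := by
    ext i j; rw [matAt, Matrix.of_apply, hl, Matrix.one_apply]
  -- the bilinear map
  let Ψ₀ : (Fin r → ℂ) → (ι → ℂ) → (ι → ℂ) := fun z w =>
    Hz g z p w - ∑ j, (Hz g z p w ⬝ᵥ l j) • dif (g j) p
  have hκ : ∀ z : Fin r → ℂ, ∀ w ∈ imA A m, Ψ₀ z w ∈ imB A m ∧ ∀ c : ℂ, p + c • w ≠ 0 →
      sz g z p + c • Ψ₀ z w ∈ N I (p + c • w) := by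
    intro z w hw
    by_cases hw0 : w = 0
    · subst hw0
      have h3 : Ψ₀ z 0 = 0 := by
        have h4 : Hz g z p 0 = 0 := by
          have := Hz_smul_right g z p 0 0
          simpa using this
        simp only [Ψ₀, h4, zero_dotProduct, zero_smul, Finset.sum_const_zero, sub_zero]
      rw [h3]
      refine ⟨Submodule.zero_mem _, fun c _ => ?_⟩
      rw [smul_zero, add_zero, add_zero]
      exact sz_mem hg z p
    obtain ⟨hcone, hex⟩ := U.exists_kappa hS h1 hp hp0 hpK hpN hw hw0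
    obtain ⟨κ, hκW, hκ⟩ := hex g hg hW z
    -- `κ - H_z(w)` is conormal at `p`
    have h3 : κ - Hz g z p w ∈ N I p := by
      rw [mem_N_iff_T]
      intro v hv
      have hdet : (matAt g l p).det ≠ 0 := by rw [hmat]; simp
      -- the curve `p + c w` and the tangent field
      have hcurve : HasDerivAt (fun c : ℂ => p + c • w) w 0 := by
        have := ((hasDerivAt_id (0 : ℂ)).smul_const w).const_add p
        simpa using this
      have hs := hasDerivAt_sz g z hcurve
      simp only [zero_smul, add_zero] at hs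
      have h4 := hasDerivAt_iff_tendsto_slope_zero.1 hs
      simp only [zero_add, zero_smul, add_zero] at h4
      have hPvc : Continuous fun y => Pv g l v y := by
        unfold Pv
        have hmatc : Continuous fun y => matAt g l y := by
          refine continuous_matrix fun i j => ?_
          simp only [matAt, Matrix.of_apply]
          exact (continuous_dif (g i)).dotProduct continuous_const
        refine Continuous.sub (hmatc.matrix_det.smul continuous_const) ?_
        refine continuous_finsetSum _ fun i _ => continuous_finsetSum _ fun j _ => ?_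
        have hc1 : Continuous fun y => dif (g i) y ⬝ᵥ v :=
          (continuous_dif (g i)).dotProduct continuous_const
        have hc2 : Continuous fun y => (matAt g l y).adjugate j i :=
          hmatc.matrix_adjugate.matrix_elem j i
        exact (hc1.mul hc2).smul continuous_const
      have h5 : Tendsto (fun c : ℂ => Pv g l v (p + c • w)) (𝓝[≠] 0) (𝓝 v) := by
        have h6 : Tendsto (fun c : ℂ => p + c • w) (𝓝[≠] 0) (𝓝 p) := by
          have := hcurve.continuousAt.tendsto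
          simp only [zero_smul, add_zero] at this
          exact this.mono_left nhdsWithin_le_nhds
        have h7 := (hPvc.tendsto p).comp h6
        rwa [Pv_self g hg l hmat hv] at h7
      have h8 : Tendsto (fun c : ℂ => (κ - c⁻¹ • (sz g z (p + c • w) - sz g z p)) ⬝ᵥ
          Pv g l v (p + c • w)) (𝓝[≠] 0) (𝓝 ((κ - Hz g z p w) ⬝ᵥ v)) := by
        have hcont : Continuous fun q : (ι → ℂ) × (ι → ℂ) => q.1 ⬝ᵥ q.2 :=
          continuous_fst.dotProduct continuous_snd
        exact (hcont.tendsto _).comp ((tendsto_const_nhds.sub h4).prodMk_nhds h5)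
      refine tendsto_nhds_unique h8 (tendsto_const_nhds.congr' ?_)
      have h9 : ∀ᶠ c : ℂ in 𝓝[≠] 0, c ≠ 0 := eventually_mem_nhdsWithin
      have h10 : ∀ᶠ c : ℂ in 𝓝[≠] 0, p + c • w ≠ 0 := by
        have := hcurve.continuousAt.tendsto
        simp only [zero_smul, add_zero] at this
        exact (this.mono_left nhdsWithin_le_nhds).eventually_ne hp0
      filter_upwards [h9, h10] with c hc hc'
      have hT := Pv_mem_T U.smooth g hg l hp hp0 hdet v (hcone c)
      have h11 := hT _ (hκ c hc')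
      have h12 := hT _ (sz_mem hg z (p + c • w))
      have h13 : κ - c⁻¹ • (sz g z (p + c • w) - sz g z p) =
          c⁻¹ • ((sz g z p + c • κ) - sz g z (p + c • w)) := by
        rw [add_sub_right_comm, smul_add, smul_smul, inv_mul_cancel₀ hc, one_smul,
          ← neg_sub (sz g z (p + c • w)), smul_neg]
        abel
      rw [h13, smul_dotProduct, sub_dotProduct, h11, h12, sub_zero, smul_zero]
    -- hence `κ = Ψ₀ z w`
    have h4 : κ = Ψ₀ z w := by
      rw [← span_dif_eq (U.smooth.rank p hp hp0) g hg hli] at h3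
      obtain ⟨b, hb⟩ := (Submodule.mem_span_range_iff_exists_fun ℂ).1 h3
      have h5 : ∀ j, b j = -(Hz g z p w ⬝ᵥ l j) := by
        intro j
        have h6 := congrArg (fun s => s ⬝ᵥ l j) hb
        simp only [sum_dotProduct, smul_dotProduct, sub_dotProduct, hl, smul_eq_mul, mul_ite,
          mul_one, mul_zero, Finset.sum_ite_eq', Finset.mem_univ, if_true] at h6
        rw [h6, mem_imB_iff.1 hκW _ (mem_kerA.1 (hlK j)), zero_sub]
      have h6 : κ = Hz g z p w + ∑ j, b j • dif (g j) p := by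
        rw [hb, add_sub_cancel]
      rw [h6]
      simp only [Ψ₀, h5, neg_smul, Finset.sum_neg_distrib, sub_eq_add_neg]
    rw [← h4]
    exact ⟨hκW, hκ⟩
  let Ψ : (Fin r → ℂ) →ₗ[ℂ] (imA A m) →ₗ[ℂ] (imB A m) :=
    LinearMap.mk₂ ℂ (fun z w => ⟨Ψ₀ z w, (hκ z w w.2).1⟩)
      (fun z z' w => Subtype.ext (by
        simp only [Ψ₀, Hz_add_left, add_dotProduct, add_smul, Finset.sum_add_distrib,
          Submodule.coe_add]
        abel))
      (fun c z w => Subtype.ext (by
        simp only [Ψ₀, Hz_smul_left, smul_dotProduct, smul_sub, Finset.smul_sum,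
          Submodule.coe_smul, smul_smul, smul_eq_mul]))
      (fun z w w' => Subtype.ext (by
        simp only [Ψ₀, Submodule.coe_add, Hz_add_right, add_dotProduct, add_smul,
          Finset.sum_add_distrib]
        abel))
      (fun c z w => Subtype.ext (by
        simp only [Ψ₀, Hz_smul_right, smul_dotProduct, smul_sub, Finset.smul_sum,
          Submodule.coe_smul, smul_smul, smul_eq_mul]))
  have hrk : 1 ≤ Module.finrank ℂ (imA A m) := by rw [finrank_imA]; omega
  obtain ⟨z, w, hz, hw, hzw⟩ := exists_singular Ψ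
    (by rw [Module.finrank_fintype_fun_eq_card, Fintype.card_fin]; exact U.two_le)
    (by rw [finrank_imA, finrank_imB]) hrk
  have hw0 : (w : ι → ℂ) ≠ 0 := fun h0 => hw (Subtype.ext h0)
  have hψ0 : Ψ₀ z w = 0 := congrArg Subtype.val hzw
  have hsw : sz g z p ∈ N I (w : ι → ℂ) := by
    refine mem_N_of_line_const U.smooth hw0
      (U.exists_kappa hS h1 hp hp0 hpK hpN w.2 hw0).1 fun c hne => ?_
    have h3 := (hκ z w w.2).2 c hne
    rwa [hψ0, smul_zero, add_zero] at h3
  have h3 := hpN _ (sz_mem hg z p) (U.N_im hS w.2 hsw)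
  exact hz (sz_eq_zero hli h3)

end main

end H12.Uni
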