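import Pool.Agent.H12.Uni.Defs

/-!
# A local parametrisation of the cone by its tangent space
-/

open MvPolynomial Matrix H89.Hart Filter Topology

set_option linter.unusedSectionVars false

namespace H12.Uni

variable {ι : Type*} [Fintype ι] [DecidableEq ι]

/-- the pairing with `s` as a continuous linear map. -/
noncomputable def dotL (s : ι → ℂ) : (ι → ℂ) →L[ℂ] ℂ :=
  ∑ i, s i • (ContinuousLinearMap.proj i : (ι → ℂ) →L[ℂ] ℂ)

theorem dotL_apply (s v : ι → ℂ) : dotL s v = s ⬝ᵥ v := by
  simp [dotL, dotProduct]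

theorem hasStrictFDerivAt_eval (f : MvPolynomial ι ℂ) (p : ι → ℂ) :
    HasStrictFDerivAt (fun x : ι → ℂ => eval x f) (dotL (dif f p)) p := by
  induction f using MvPolynomial.induction_on with
  | C c =>
    simp only [eval_C]
    have : dotL (dif (C c : MvPolynomial ι ℂ) p) = 0 := by
      ext v; simp [dotL_apply, dif, dotProduct]
    rw [this]
    exact hasStrictFDerivAt_const c p
  | add f g hf hg =>
    simp only [map_add]
    refine (hf.fun_add hg).congr_fderiv ?_
    ext v
    simp [dotL_apply, dif_add, add_dotProduct]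
  | mul_X f i hf =>
    simp only [map_mul, eval_X]
    have h1 : HasStrictFDerivAt (fun x : ι → ℂ => x i)
        (ContinuousLinearMap.proj i : (ι → ℂ) →L[ℂ] ℂ) p :=
      (ContinuousLinearMap.proj i : (ι → ℂ) →L[ℂ] ℂ).hasStrictFDerivAt
    refine (hf.fun_mul h1).congr_fderiv ?_
    ext v
    simp [dotL_apply, dif_mul, dif_X, add_dotProduct, smul_dotProduct]
  
/-- **(ARC)** a local parametrisation of the cone by its tangent space. -/
theorem arc {I : Ideal (MvPolynomial ι ℂ)} {r : ℕ} (hI : Smooth I r) {p : ι → ℂ}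
    (hp : p ∈ cone I) (hp0 : p ≠ 0) :
    ∃ c : (ι → ℂ) → (ι → ℂ), c 0 = p ∧
      HasStrictFDerivAt c (ContinuousLinearMap.id ℂ (ι → ℂ)) 0 ∧
      ∀ᶠ w in 𝓝 (0 : ι → ℂ), w ∈ T I p → c w ∈ cone I := by
  obtain ⟨g, l, hg, -, hli, hmat⟩ := exists_frame hI hp hp0
  let Φ : (ι → ℂ) → (ι → ℂ) := fun x => (x - p) +
    ∑ i, (eval x (g i) - dif (g i) p ⬝ᵥ (x - p)) • l i
  have hΦp : Φ p = 0 := by
    simp only [Φ, sub_self, dotProduct_zero, zero_add, sub_zero]
    exact Finset.sum_eq_zero fun i _ => by rw [hp _ (hg i), zero_smul]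
  have hΦ : HasStrictFDerivAt Φ
      ((ContinuousLinearEquiv.refl ℂ (ι → ℂ) : (ι → ℂ) ≃L[ℂ] (ι → ℂ)) :
        (ι → ℂ) →L[ℂ] (ι → ℂ)) p := by
    have h1 : HasStrictFDerivAt (fun x : ι → ℂ => x - p)
        (ContinuousLinearMap.id ℂ (ι → ℂ)) p := (hasStrictFDerivAt_id p).sub_const p
    have h2 : ∀ i, HasStrictFDerivAt
        (fun x : ι → ℂ => (eval x (g i) - dif (g i) p ⬝ᵥ (x - p)) • l i)
        (0 : (ι → ℂ) →L[ℂ] (ι → ℂ)) p := by
      intro i
      have h3 : HasStrictFDerivAt (fun x : ι → ℂ => dif (g i) p ⬝ᵥ (x - p))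
          (dotL (dif (g i) p)) p := by
        have h4 := (dotL (dif (g i) p)).hasStrictFDerivAt.comp p h1
        have h5 : (fun x : ι → ℂ => (dotL (dif (g i) p)) (x - p)) =
            fun x : ι → ℂ => dif (g i) p ⬝ᵥ (x - p) := by
          funext x; exact dotL_apply _ _
        rw [← h5]
        exact h4
      have h6 := ((hasStrictFDerivAt_eval (g i) p).fun_sub h3).smul_const (l i)
      refine h6.congr_fderiv ?_
      ext v; simp
    have h3 := h1.fun_add (HasStrictFDerivAt.fun_sum (u := Finset.univ) fun i _ => h2 i)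
    refine h3.congr_fderiv ?_
    ext v; simp
  refine ⟨hΦ.localInverse Φ _ p, ?_, ?_, ?_⟩
  · rw [← hΦp]
    exact hΦ.localInverse_apply_image
  · have h1 := hΦ.to_localInverse
    rw [hΦp] at h1
    exact h1
  · -- generators of the ideal
    have hfg : I.FG := (inferInstance : IsNoetherianRing (MvPolynomial ι ℂ)).noetherian I
    obtain ⟨S, hS⟩ := hfg
    have hu : ∀ f ∈ S, ∃ u, eval p u ≠ 0 ∧ u * f ∈ Ideal.span (Set.range g) := fun f hf =>
      L0 hI g hg hp hp0 hli (by rw [← hS]; exact Ideal.subset_span hf)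
    choose! u hu0 huf using hu
    have hc0 : Tendsto (hΦ.localInverse Φ _ p) (𝓝 0) (𝓝 p) := by
      have := hΦ.localInverse_tendsto
      rwa [hΦp] at this
    have hev : ∀ᶠ w in 𝓝 (0 : ι → ℂ), ∀ f ∈ S, eval (hΦ.localInverse Φ _ p w) (u f) ≠ 0 := by
      rw [Filter.eventually_all_finset]
      intro f hf
      have hcont : Continuous fun x : ι → ℂ => eval x (u f) := MvPolynomial.continuous_eval _
      exact ((hcont.tendsto p).comp hc0).eventually_ne (hu0 f hf)
    have hright : ∀ᶠ w in 𝓝 (0 : ι → ℂ), Φ (hΦ.localInverse Φ _ p w) = w := by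
      have := hΦ.eventually_right_inverse
      rwa [hΦp] at this
    filter_upwards [hev, hright] with w h1 h2 hw
    set x := hΦ.localInverse Φ _ p w with hx
    have hgx : ∀ k, eval x (g k) = 0 := by
      intro k
      have h3 : dif (g k) p ⬝ᵥ w = 0 := hw _ (mem_N.2 ⟨g k, hg k, rfl⟩)
      rw [← h2] at h3
      simp only [Φ, dotProduct_add, dotProduct_sum, dotProduct_smul] at h3
      have h4 : ∀ i, dif (g k) p ⬝ᵥ l i = if k = i then 1 else 0 := by
        intro i
        have := congrFun (congrFun hmat k) i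
        rw [matAt, Matrix.of_apply, Matrix.one_apply] at this
        exact this
      simp only [h4, smul_eq_mul, mul_ite, mul_one, mul_zero, Finset.sum_ite_eq, Finset.mem_univ,
        if_true] at h3
      linear_combination h3
    have hspan : ∀ f ∈ Ideal.span (Set.range g), eval x f = 0 := by
      intro f hf
      have : Ideal.span (Set.range g) ≤ RingHom.ker (eval x) := by
        rw [Ideal.span_le]; rintro _ ⟨i, rfl⟩; exact RingHom.mem_ker.2 (hgx i)
      exact RingHom.mem_ker.1 (this hf)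
    have hker : I ≤ RingHom.ker (eval x) := by
      rw [← hS, Ideal.span_le]
      intro f hf
      have h5 := hspan _ (huf f hf)
      rw [map_mul] at h5
      exact RingHom.mem_ker.2 ((mul_eq_zero.1 h5).resolve_left (h1 f hf))
    exact fun f hf => RingHom.mem_ker.1 (hker hf)

end H12.Uni
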