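import Pool.Agent.H12.Uni.Flow
import Pool.Agent.H12.Uni.ZM
import Pool.Agent.H34.Uni.Arc
import Pool.Agent.H89.Hart.Weights

/-!
# Section 1: the gap case
-/

open MvPolynomial Matrix H89.Hart Filter Topology

set_option linter.unusedSectionVars false

namespace H12.Uni

variable {ι : Type*} [Fintype ι] [DecidableEq ι]

/-! ### small helpers -/

theorem hasDerivAt_eval (f : MvPolynomial ι ℂ) {x : ℂ → ι → ℂ} {v : ι → ℂ} {a : ℂ}
    (hx : HasDerivAt x v a) : HasDerivAt (fun t => eval (x t) f) (dif f (x a) ⬝ᵥ v) a := by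
  induction f using MvPolynomial.induction_on with
  | C c =>
    simp only [eval_C]
    have : dif (C c : MvPolynomial ι ℂ) (x a) ⬝ᵥ v = 0 := by
      simp [dif, dotProduct]
    rw [this]
    exact hasDerivAt_const a c
  | add f g hf hg =>
    simp only [map_add]
    rw [dif_add, add_dotProduct]
    exact hf.add hg
  | mul_X f i hf =>
    simp only [map_mul, eval_X]
    have h1 : HasDerivAt (fun t => x t i) (v i) a := (hasDerivAt_pi.1 hx) i
    refine (hf.fun_mul h1).congr_deriv ?_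
    rw [dif_mul, dif_X, add_dotProduct, smul_dotProduct, smul_dotProduct]
    simp [mul_comm, add_comm]

theorem hasDerivAt_dif (f : MvPolynomial ι ℂ) {x : ℂ → ι → ℂ} {v : ι → ℂ} {a : ℂ}
    (hx : HasDerivAt x v a) : HasDerivAt (fun t => dif f (x t)) (hess f (x a) v) a := by
  rw [hasDerivAt_pi]
  intro i
  exact hasDerivAt_eval (pderiv i f) hx

theorem orb_vadd (A : Matrix ι ι ℂ) (m : ℕ) (t : ℂ) (x y : ι → ℂ) :
    orb A m t (x + y) = orb A m t x + orb A m t y := by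
  simp only [orb, mulVec_add, smul_add, Finset.sum_add_distrib]

theorem orb_vsmul (A : Matrix ι ι ℂ) (m : ℕ) (t c : ℂ) (x : ι → ℂ) :
    orb A m t (c • x) = c • orb A m t x := by
  simp only [orb, mulVec_smul, Finset.smul_sum]
  refine Finset.sum_congr rfl fun i _ => ?_
  rw [smul_comm]

theorem orbB_vadd (A : Matrix ι ι ℂ) (m : ℕ) (t : ℂ) (x y : ι → ℂ) :
    orbB A m t (x + y) = orbB A m t x + orbB A m t y := by
  simp only [orbB, add_vecMul, smul_add, Finset.sum_add_distrib]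

theorem orbB_vsmul (A : Matrix ι ι ℂ) (m : ℕ) (t c : ℂ) (x : ι → ℂ) :
    orbB A m t (c • x) = c • orbB A m t x := by
  simp only [orbB, smul_vecMul, Finset.smul_sum]
  refine Finset.sum_congr rfl fun i _ => ?_
  rw [smul_comm]

theorem le_dim_of {d : WithBot ℕ∞} {a M r : ℕ} (h : (M : WithBot ℕ∞) ≤ d + r) (ha : a + r ≤ M) :
    (a : WithBot ℕ∞) ≤ d := by
  induction d using WithBot.recBotCoe with
  | bot => simp at h
  | coe d =>
    induction d using ENat.recTopCoe with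
    | top => exact le_top
    | coe d =>
      norm_cast at h ⊢
      omega

section good

variable {I : Ideal (MvPolynomial ι ℂ)} {r : ℕ} {A : Matrix ι ι ℂ} {m : ℕ}

/-- good points for the gap at `e < m`. -/
structure Good (I : Ideal (MvPolynomial ι ℂ)) (A : Matrix ι ι ℂ) (e : ℕ) (p : ι → ℂ) : Prop where
  mem : p ∈ cone I
  ker : A ^ (e + 1) *ᵥ p = 0
  ne : A ^ e *ᵥ p ≠ 0
  c1 : ∀ s ∈ N I p, s ᵥ* A ^ e = 0 → s = 0
  c2 : ∀ s ∈ N I (A ^ e *ᵥ p), s ∈ imB A (e + 1) → s = 0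

theorem Good.ne_zero {e : ℕ} {p : ι → ℂ} (h : Good I A e p) : p ≠ 0 := by
  rintro rfl
  exact h.ne (mulVec_zero _)

theorem imB_anti {i j : ℕ} (h : i ≤ j) {s : ι → ℂ} (hs : s ∈ imB A j) : s ∈ imB A i := by
  obtain ⟨u, rfl⟩ := mem_imB.1 hs
  refine mem_imB.2 ⟨u ᵥ* A ^ (j - i), ?_⟩
  rw [vecMul_vecMul, ← pow_add, Nat.sub_add_cancel h]

/-- (1a) -/
theorem Good.kill (U : UniSetup I r A m) {e : ℕ} {p : ι → ℂ} (h : Good I A e p) {s : ι → ℂ}
    (hs : s ∈ N I p) : s ᵥ* A ^ (e + 1) = 0 := by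
  by_contra hne
  have hnil : s ᵥ* A ^ (m + 1) = 0 := by rw [U.nil, vecMul_zero]
  classical
  have hex : ∃ k, s ᵥ* A ^ (k + 1) = 0 := ⟨m, hnil⟩
  set k := Nat.find hex with hk
  have hk1 : s ᵥ* A ^ (k + 1) = 0 := Nat.find_spec hex
  have hkpos : e + 1 ≤ k := by
    by_contra hlt
    push Not at hlt
    apply hne
    have : e + 1 = (k + 1) + (e - k) := by omega
    rw [this, pow_add, ← vecMul_vecMul, hk1, zero_vecMul]
  have hk0 : s ᵥ* A ^ k ≠ 0 := by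
    intro h0
    obtain ⟨k', hk'⟩ : ∃ k', k = k' + 1 := ⟨k - 1, by omega⟩
    have : k' < Nat.find hex := by omega
    exact Nat.find_min hex this (by rw [← hk']; exact h0)
  have h1 := U.cl h.mem hs h.ne h.ker hk1
  exact hk0 (h.c2 _ h1 (imB_anti hkpos (mem_imB.2 ⟨s, rfl⟩)))

/-- (1b) -/
theorem Good.surj (U : UniSetup I r A m) {e : ℕ} (hem : e < m) {p : ι → ℂ} (h : Good I A e p)
    (u : ι → ℂ) : ∃ v ∈ T I p, A ^ m *ᵥ v = A ^ m *ᵥ u := by
  have htop : T I p ⊔ kerA A m = ⊤ := by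
    by_contra hne
    obtain ⟨f, hf0, hf⟩ := Submodule.exists_le_ker_of_lt_top _ (lt_top_iff_ne_top.2 hne)
    apply hf0
    let s : ι → ℂ := fun i => f (Pi.single i 1)
    have hs : ∀ v, s ⬝ᵥ v = f v := by
      intro v
      conv_rhs => rw [show v = ∑ k, v k • (Pi.single k (1 : ℂ) : ι → ℂ) from by
        funext m; simp [Finset.sum_apply, Pi.single_apply]]
      rw [map_sum]
      simp [dotProduct, s, mul_comm]
    have h1 : s ∈ N I p := by
      rw [mem_N_iff_T]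
      intro v hv
      rw [hs]
      exact hf (Submodule.mem_sup_left hv)
    have h2 : s ∈ imB A m := by
      rw [mem_imB_iff]
      intro v hv
      rw [hs]
      exact hf (Submodule.mem_sup_right (mem_kerA.2 hv))
    have h3 : s ᵥ* A = 0 := by
      obtain ⟨u, hu⟩ := mem_imB.1 h2
      rw [← hu, vecMul_vecMul, ← pow_succ, U.nil, vecMul_zero]
    have h4 : s ᵥ* A ^ (0 + 1) = 0 := by simpa using h3
    have h5 := U.cl h.mem h1 h.ne h.ker h4
    rw [pow_zero, vecMul_one] at h5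
    have h6 := h.c2 _ h5 (imB_anti hem h2)
    refine LinearMap.ext fun v => ?_
    rw [← hs, h6]
    simp
  have hu : u ∈ T I p ⊔ kerA A m := by rw [htop]; trivial
  obtain ⟨v, hv, k, hk, rfl⟩ := Submodule.mem_sup.1 hu
  refine ⟨v, hv, ?_⟩
  rw [mulVec_add, mem_kerA.1 hk, add_zero]

/-- `s_z` at a point `x`. -/
noncomputable def sz {r : ℕ} (g : Fin r → MvPolynomial ι ℂ) (z : Fin r → ℂ) (x : ι → ℂ) : ι → ℂ :=
  ∑ i, z i • dif (g i) x

/-- `H_z(v)`. -/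
noncomputable def Hz {r : ℕ} (g : Fin r → MvPolynomial ι ℂ) (z : Fin r → ℂ) (p v : ι → ℂ) :
    ι → ℂ := ∑ i, z i • hess (g i) p v

theorem sz_mem {r : ℕ} {g : Fin r → MvPolynomial ι ℂ} (hg : ∀ i, g i ∈ I) (z : Fin r → ℂ)
    (x : ι → ℂ) : sz g z x ∈ N I x :=
  Submodule.sum_mem _ fun i _ => Submodule.smul_mem _ _ (mem_N.2 ⟨g i, hg i, rfl⟩)

theorem hasDerivAt_sz {r : ℕ} (g : Fin r → MvPolynomial ι ℂ) (z : Fin r → ℂ) {x : ℂ → ι → ℂ}
    {v : ι → ℂ} {a : ℂ} (hx : HasDerivAt x v a) :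
    HasDerivAt (fun t => sz g z (x t)) (Hz g z (x a) v) a := by
  unfold sz Hz
  exact HasDerivAt.fun_sum fun i _ => (hasDerivAt_dif (g i) hx).const_smul (z i)

/-- (1c) -/
theorem Good.limit (U : UniSetup I r A m) {e : ℕ} (hem : e < m) {p : ι → ℂ} (h : Good I A e p)
    {g : Fin r → MvPolynomial ι ℂ} (hg : ∀ i, g i ∈ I) (z : Fin r → ℂ) {v : ι → ℂ}
    (hv : v ∈ T I p) (c : ℂ) :
    A ^ e *ᵥ p + c • (A ^ m *ᵥ v) ∈ cone I ∧
      (A ^ e *ᵥ p + c • (A ^ m *ᵥ v) ≠ 0 →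
        sz g z p ᵥ* A ^ e + (c * (-1) ^ (m + e)) • (Hz g z p v ᵥ* A ^ m) ∈
          N I (A ^ e *ᵥ p + c • (A ^ m *ᵥ v))) := by
  by_cases hc : c = 0
  · subst hc
    simp only [zero_smul, add_zero, zero_mul]
    refine ⟨U.cl_cone h.mem h.ker, fun _ => U.cl h.mem (sz_mem hg z p) h.ne h.ker ?_⟩
    exact h.kill U (sz_mem hg z p)
  obtain ⟨χ, hχ0, hχd, hχ⟩ := arc U.smooth h.mem h.ne_zero
  -- the curve `x(ε) = χ(ε v)`
  have hx : HasDerivAt (fun ε : ℂ => χ (ε • v)) v 0 := by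
    have h1 : HasDerivAt (fun ε : ℂ => ε • v) v 0 := by
      simpa using (hasDerivAt_id (0 : ℂ)).smul_const v
    have h2 : HasFDerivAt χ (ContinuousLinearMap.id ℂ (ι → ℂ)) ((fun ε : ℂ => ε • v) 0) := by
      simpa using hχd.hasFDerivAt
    exact h2.comp_hasDerivAt (0 : ℂ) h1
  have hx0 : (fun ε : ℂ => χ (ε • v)) 0 = p := by simp [hχ0]
  have hxc : ∀ᶠ ε : ℂ in 𝓝 0, χ (ε • v) ∈ cone I := by
    have h1 : Tendsto (fun ε : ℂ => ε • v) (𝓝 0) (𝓝 0) := by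
      have : Continuous fun ε : ℂ => ε • v := by fun_prop
      simpa using this.tendsto 0
    filter_upwards [h1.eventually hχ] with ε hε
    exact hε (Submodule.smul_mem _ _ hv)
  have hs := hasDerivAt_sz g z hx
  have hT : Tendsto (fun a : ℝ => (a : ℂ)) atTop (Bornology.cobounded ℂ) :=
    RCLike.tendsto_ofReal_atTop_cobounded ℂ
  have hT' : Tendsto (fun a : ℝ => -(a : ℂ)) atTop (Bornology.cobounded ℂ) :=
    Filter.tendsto_neg_cobounded.comp hT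
  set K : ℂ := c * m.factorial / e.factorial with hK
  have hmf : (m.factorial : ℂ) ≠ 0 := Nat.cast_ne_zero.2 m.factorial_ne_zero
  have hef : (e.factorial : ℂ) ≠ 0 := Nat.cast_ne_zero.2 e.factorial_ne_zero
  have hK0 : K ≠ 0 := div_ne_zero (mul_ne_zero hc hmf) hef
  set ε : ℝ → ℂ := fun a => K * ((a : ℂ)⁻¹) ^ (m - e) with hε
  have hε0 : Tendsto ε atTop (𝓝 0) := by
    have h1 : Tendsto (fun a : ℝ => (a : ℂ)⁻¹) atTop (𝓝 0) := tendsto_inv₀_cobounded.comp hT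
    have h2 := (h1.pow (m - e)).const_mul K
    rw [zero_pow (by omega), mul_zero] at h2
    exact h2
  have hεne : ∀ᶠ a in atTop, ε a ≠ 0 := by
    filter_upwards [eventually_gt_atTop (0 : ℝ)] with a ha
    have : (a : ℂ) ≠ 0 := by exact_mod_cast ha.ne'
    exact mul_ne_zero hK0 (pow_ne_zero _ (inv_ne_zero this))
  have hεp : Tendsto ε atTop (𝓝[≠] 0) :=
    tendsto_nhdsWithin_iff.2 ⟨hε0, hεne⟩
  -- slopes
  have hv' : Tendsto (fun a => (ε a)⁻¹ • (χ (ε a • v) - p)) atTop (𝓝 v) := by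
    have h1 := (hasDerivAt_iff_tendsto_slope_zero.1 hx).comp hεp
    refine h1.congr fun a => ?_
    simp [hχ0]
  have hh' : Tendsto (fun a => (ε a)⁻¹ • (sz g z (χ (ε a • v)) - sz g z p)) atTop
      (𝓝 (Hz g z p v)) := by
    have h1 := (hasDerivAt_iff_tendsto_slope_zero.1 hs).comp hεp
    simp only [zero_smul, hχ0] at h1
    refine h1.congr fun a => ?_
    simp
  -- the limit of the points
  have hP : Tendsto (fun a : ℝ => (e.factorial : ℂ) • (((a : ℂ) ^ e)⁻¹ • orb A m a p) +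
      (c * m.factorial) • (((a : ℂ) ^ m)⁻¹ • orb A m a ((ε a)⁻¹ • (χ (ε a • v) - p)))) atTop
      (𝓝 (A ^ e *ᵥ p + c • (A ^ m *ᵥ v))) := by
    have h1 := (tendsto_orb_fixed hem.le h.ker hT).const_smul (e.factorial : ℂ)
    have h2 := (tendsto_orb U.nil hT hv').const_smul (c * (m.factorial : ℂ))
    have h3 := h1.add h2
    rw [smul_smul, smul_smul, mul_inv_cancel₀ hef, one_smul, mul_inv_cancel_right₀ hmf] at h3
    exact h3
  have hQ : Tendsto (fun a : ℝ => (e.factorial : ℂ) • (((-(a : ℂ)) ^ e)⁻¹ •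
      orbB A m (-a) (sz g z p)) + (c * (-1) ^ (m + e) * m.factorial) • (((-(a : ℂ)) ^ m)⁻¹ •
        orbB A m (-a) ((ε a)⁻¹ • (sz g z (χ (ε a • v)) - sz g z p)))) atTop
      (𝓝 (sz g z p ᵥ* A ^ e + (c * (-1) ^ (m + e)) • (Hz g z p v ᵥ* A ^ m))) := by
    have h1 := (tendsto_orbB_fixed hem.le (h.kill U (sz_mem hg z p)) hT').const_smul
      (e.factorial : ℂ)
    have h2 := (tendsto_orbB U.nil hT' hh').const_smul (c * (-1) ^ (m + e) * (m.factorial : ℂ))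
    have h3 := h1.add h2
    rw [smul_smul, smul_smul, mul_inv_cancel₀ hef, one_smul, mul_inv_cancel_right₀ hmf] at h3
    exact h3
  have hpt : ∀ᶠ a : ℝ in atTop, (e.factorial : ℂ) • (((a : ℂ) ^ e)⁻¹ • orb A m a p) +
      (c * m.factorial) • (((a : ℂ) ^ m)⁻¹ • orb A m a ((ε a)⁻¹ • (χ (ε a • v) - p))) =
      ((e.factorial : ℂ) * ((a : ℂ) ^ e)⁻¹) • orb A m a (χ (ε a • v)) := by
    filter_upwards [eventually_gt_atTop (0 : ℝ), hεne] with a ha hne
    have ha' : (a : ℂ) ≠ 0 := by exact_mod_cast ha.ne'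
    have h1 : χ (ε a • v) = p + ε a • ((ε a)⁻¹ • (χ (ε a • v) - p)) := by
      rw [smul_smul, mul_inv_cancel₀ hne, one_smul, add_sub_cancel]
    conv_rhs => rw [h1, orb_vadd, orb_vsmul, smul_add, smul_smul]
    congr 1
    · rw [smul_smul]
    · rw [smul_smul]
      congr 1
      have h2 : (a : ℂ) ^ m = (a : ℂ) ^ (m - e) * (a : ℂ) ^ e := by
        rw [← pow_add, Nat.sub_add_cancel hem.le]
      simp only [hε, hK, h2, inv_pow]
      field_simp
  have hcn : ∀ᶠ a : ℝ in atTop, (e.factorial : ℂ) • (((-(a : ℂ)) ^ e)⁻¹ •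
      orbB A m (-a) (sz g z p)) + (c * (-1) ^ (m + e) * m.factorial) • (((-(a : ℂ)) ^ m)⁻¹ •
        orbB A m (-a) ((ε a)⁻¹ • (sz g z (χ (ε a • v)) - sz g z p))) =
      ((e.factorial : ℂ) * ((-(a : ℂ)) ^ e)⁻¹) • orbB A m (-a) (sz g z (χ (ε a • v))) := by
    filter_upwards [eventually_gt_atTop (0 : ℝ), hεne] with a ha hne
    have ha' : (a : ℂ) ≠ 0 := by exact_mod_cast ha.ne'
    have h1 : sz g z (χ (ε a • v)) =
        sz g z p + ε a • ((ε a)⁻¹ • (sz g z (χ (ε a • v)) - sz g z p)) := by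
      rw [smul_smul, mul_inv_cancel₀ hne, one_smul, add_sub_cancel]
    conv_rhs => rw [h1, orbB_vadd, orbB_vsmul, smul_add, smul_smul]
    congr 1
    · rw [smul_smul]
    · rw [smul_smul]
      congr 1
      have h2 : (-(a : ℂ)) ^ m = (-1) ^ m * ((a : ℂ) ^ (m - e) * (a : ℂ) ^ e) := by
        rw [← pow_add, Nat.sub_add_cancel hem.le, neg_pow]
      have h3 : (-(a : ℂ)) ^ e = (-1) ^ e * (a : ℂ) ^ e := neg_pow _ _
      have h4 : ((-1 : ℂ) ^ e) * (-1) ^ e = 1 := by rw [← mul_pow]; simp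
      have h6 : ((-1 : ℂ) ^ e) ≠ 0 := pow_ne_zero _ (by norm_num)
      have h7 : ((-1 : ℂ) ^ m) ≠ 0 := pow_ne_zero _ (by norm_num)
      simp only [hε, hK, h2, h3, pow_add, inv_pow]
      field_simp
      rw [sq, h4]
  have hmem : ∀ᶠ a : ℝ in atTop, χ (ε a • v) ∈ cone I := hε0.eventually hxc
  have hcl : A ^ e *ᵥ p + c • (A ^ m *ᵥ v) ∈ cone I := by
    refine (isClosed_cone I).mem_of_tendsto hP ?_
    filter_upwards [hpt, hmem] with a h1 h2
    rw [h1]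
    exact smul_mem_cone U.smooth (U.stab _ h2 _) _
  refine ⟨hcl, fun hne => ?_⟩
  refine (mem_N_of_tendsto U.smooth hne hP hQ ?_).2
  filter_upwards [hpt, hmem, hcn, eventually_gt_atTop (0 : ℝ)] with a h1 h2 h3 ha
  have ha' : (a : ℂ) ≠ 0 := by exact_mod_cast ha.ne'
  rw [h1, h3]
  refine ⟨smul_mem_cone U.smooth (U.stab _ h2 _) _, ?_⟩
  refine N_smul U.smooth (mul_ne_zero hef (inv_ne_zero (pow_ne_zero _ ha'))) ?_
  exact Submodule.smul_mem _ _ (U.orbB_mem h2 (sz_mem hg z _) _)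

/-- the limit of a line of points. -/
theorem mem_N_of_line (hI : Smooth I r) {q w σ ψ : ι → ℂ} (hw0 : w ≠ 0)
    (hc : ∀ c : ℂ, q + c • w ∈ cone I)
    (h : ∀ c : ℂ, q + c • w ≠ 0 → σ + c • ψ ∈ N I (q + c • w)) : ψ ∈ N I w := by
  have hT : Tendsto (fun a : ℝ => (a : ℂ)) atTop (Bornology.cobounded ℂ) :=
    RCLike.tendsto_ofReal_atTop_cobounded ℂ
  have h1 : Tendsto (fun a : ℝ => (a : ℂ)⁻¹) atTop (𝓝 0) := tendsto_inv₀_cobounded.comp hT
  have h2 : Tendsto (fun a : ℝ => (a : ℂ)⁻¹ • q + w) atTop (𝓝 w) := by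
    have := (h1.smul_const q).add_const w
    simpa using this
  have h3 : Tendsto (fun a : ℝ => (a : ℂ)⁻¹ • σ + ψ) atTop (𝓝 ψ) := by
    have := (h1.smul_const σ).add_const ψ
    simpa using this
  refine (mem_N_of_tendsto hI hw0 h2 h3 ?_).2
  filter_upwards [eventually_gt_atTop (0 : ℝ), h2.eventually_ne hw0] with a ha hne
  have ha' : (a : ℂ) ≠ 0 := by exact_mod_cast ha.ne'
  have h4 : (a : ℂ)⁻¹ • q + w = (a : ℂ)⁻¹ • (q + (a : ℂ) • w) := by
    rw [smul_add, smul_smul, inv_mul_cancel₀ ha', one_smul]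
  have h5 : (a : ℂ)⁻¹ • σ + ψ = (a : ℂ)⁻¹ • (σ + (a : ℂ) • ψ) := by
    rw [smul_add, smul_smul, inv_mul_cancel₀ ha', one_smul]
  have h6 : q + (a : ℂ) • w ≠ 0 := by
    intro h0
    rw [h4, h0, smul_zero] at hne
    exact hne rfl
  rw [h4, h5]
  exact ⟨smul_mem_cone hI (hc _) _,
    N_smul hI (inv_ne_zero ha') (Submodule.smul_mem _ _ (h _ h6))⟩

theorem mem_N_of_line_const (hI : Smooth I r) {q w σ : ι → ℂ} (hw0 : w ≠ 0)
    (hc : ∀ c : ℂ, q + c • w ∈ cone I)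
    (h : ∀ c : ℂ, q + c • w ≠ 0 → σ ∈ N I (q + c • w)) : σ ∈ N I w := by
  refine mem_N_of_line hI (σ := 0) hw0 hc fun c hne => ?_
  rw [zero_add]
  exact Submodule.smul_mem _ _ (h c hne)

theorem sz_eq_zero {g : Fin r → MvPolynomial ι ℂ} {p : ι → ℂ}
    (hli : LinearIndependent ℂ (fun i => dif (g i) p)) {z : Fin r → ℂ} (h : sz g z p = 0) :
    z = 0 := funext (Fintype.linearIndependent_iff.1 hli z h)

theorem Hz_add_left (g : Fin r → MvPolynomial ι ℂ) (z z' : Fin r → ℂ) (p v : ι → ℂ) :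
    Hz g (z + z') p v = Hz g z p v + Hz g z' p v := by
  simp [Hz, add_smul, Finset.sum_add_distrib]

theorem Hz_smul_left (g : Fin r → MvPolynomial ι ℂ) (c : ℂ) (z : Fin r → ℂ) (p v : ι → ℂ) :
    Hz g (c • z) p v = c • Hz g z p v := by
  simp [Hz, Finset.smul_sum, smul_smul]

theorem Hz_add_right (g : Fin r → MvPolynomial ι ℂ) (z : Fin r → ℂ) (p v v' : ι → ℂ) :
    Hz g z p (v + v') = Hz g z p v + Hz g z p v' := by
  simp [Hz, hess_add_right, Finset.sum_add_distrib]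

theorem Hz_smul_right (g : Fin r → MvPolynomial ι ℂ) (z : Fin r → ℂ) (p : ι → ℂ) (c : ℂ)
    (v : ι → ℂ) : Hz g z p (c • v) = c • Hz g z p v := by
  simp [Hz, hess_smul_right, Finset.smul_sum, smul_comm c]

/-- the image of `A ^ m` lies in the cone. -/
theorem Good.im_mem (U : UniSetup I r A m) {e : ℕ} (hem : e < m) {p : ι → ℂ} (h : Good I A e p)
    (u : ι → ℂ) : A ^ m *ᵥ u ∈ cone I := by
  obtain ⟨g, l, hg, -, hli, -⟩ := exists_frame U.smooth h.mem h.ne_zero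
  by_cases hw : A ^ m *ᵥ u = 0
  · rw [hw]
    simpa using smul_mem_cone U.smooth h.mem (0 : ℂ)
  obtain ⟨v, hv, hvu⟩ := h.surj U hem u
  have hc : ∀ c : ℂ, A ^ e *ᵥ p + c • (A ^ m *ᵥ u) ∈ cone I := fun c => by
    rw [← hvu]
    exact (h.limit U hem hg 0 hv c).1
  have hT : Tendsto (fun a : ℝ => (a : ℂ)) atTop (Bornology.cobounded ℂ) :=
    RCLike.tendsto_ofReal_atTop_cobounded ℂ
  have h1 : Tendsto (fun a : ℝ => (a : ℂ)⁻¹) atTop (𝓝 0) := tendsto_inv₀_cobounded.comp hT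
  have h2 : Tendsto (fun a : ℝ => (a : ℂ)⁻¹ • (A ^ e *ᵥ p) + A ^ m *ᵥ u) atTop
      (𝓝 (A ^ m *ᵥ u)) := by
    have := (h1.smul_const (A ^ e *ᵥ p)).add_const (A ^ m *ᵥ u)
    simpa using this
  refine (isClosed_cone I).mem_of_tendsto h2 ?_
  filter_upwards [eventually_gt_atTop (0 : ℝ)] with a ha
  have ha' : (a : ℂ) ≠ 0 := by exact_mod_cast ha.ne'
  have h4 : (a : ℂ)⁻¹ • (A ^ e *ᵥ p) + A ^ m *ᵥ u =
      (a : ℂ)⁻¹ • (A ^ e *ᵥ p + (a : ℂ) • (A ^ m *ᵥ u)) := by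
    rw [smul_add, smul_smul, inv_mul_cancel₀ ha', one_smul]
  rw [h4]
  exact smul_mem_cone U.smooth (hc _) _

/-- (1e) -/
theorem Good.N_le (U : UniSetup I r A m) {e : ℕ} (hem : e < m) {p : ι → ℂ} (h : Good I A e p)
    {u : ι → ℂ} (hw0 : A ^ m *ᵥ u ≠ 0)
    (hc3 : ∀ s ∈ N I (A ^ e *ᵥ p), s ∈ N I (A ^ m *ᵥ u) → s = 0) {s : ι → ℂ}
    (hs : s ∈ N I (A ^ m *ᵥ u)) : s ∈ imB A m := by
  obtain ⟨g, l, hg, -, hli, -⟩ := exists_frame U.smooth h.mem h.ne_zero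
  obtain ⟨v, hv, hvu⟩ := h.surj U hem u
  have hc : ∀ c : ℂ, A ^ e *ᵥ p + c • (A ^ m *ᵥ u) ∈ cone I := fun c => by
    rw [← hvu]
    exact (h.limit U hem hg 0 hv c).1
  let ψ : (Fin r → ℂ) →ₗ[ℂ] (ι → ℂ) :=
    { toFun := fun z => ((-1 : ℂ) ^ (m + e)) • (Hz g z p v ᵥ* A ^ m)
      map_add' := fun z z' => by rw [Hz_add_left, add_vecMul, smul_add]
      map_smul' := fun c z => by
        rw [Hz_smul_left, smul_vecMul, smul_comm, RingHom.id_apply] }
  have hψ : ∀ (z : Fin r → ℂ) (c : ℂ), A ^ e *ᵥ p + c • (A ^ m *ᵥ u) ≠ 0 →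
      sz g z p ᵥ* A ^ e + c • ψ z ∈ N I (A ^ e *ᵥ p + c • (A ^ m *ᵥ u)) := by
    intro z c hne
    have h1 := (h.limit U hem hg z hv c).2
    rw [hvu] at h1
    have h2 := h1 hne
    rw [mul_smul] at h2
    exact h2
  have hψN : ∀ z, ψ z ∈ N I (A ^ m *ᵥ u) := fun z =>
    mem_N_of_line U.smooth hw0 hc (hψ z)
  have hψi : LinearMap.ker ψ = ⊥ := by
    rw [LinearMap.ker_eq_bot']
    intro z hz
    have h1 : sz g z p ᵥ* A ^ e ∈ N I (A ^ m *ᵥ u) := by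
      refine mem_N_of_line_const U.smooth hw0 hc fun c hne => ?_
      have h2 := hψ z c hne
      rwa [hz, smul_zero, add_zero] at h2
    have h2 : sz g z p ᵥ* A ^ e ∈ N I (A ^ e *ᵥ p) :=
      U.cl h.mem (sz_mem hg z p) h.ne h.ker (h.kill U (sz_mem hg z p))
    have h3 := hc3 _ h2 h1
    exact sz_eq_zero hli (h.c1 _ (sz_mem hg z p) h3)
  have hle : LinearMap.range ψ ≤ N I (A ^ m *ᵥ u) := by
    rintro _ ⟨z, rfl⟩; exact hψN z
  have heq : LinearMap.range ψ = N I (A ^ m *ᵥ u) := by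
    apply Submodule.eq_of_le_of_finrank_eq hle
    have h1 := LinearMap.finrank_range_add_finrank_ker ψ
    rw [hψi, finrank_bot, add_zero, Module.finrank_fintype_fun_eq_card, Fintype.card_fin] at h1
    rw [h1, U.smooth.rank _ (h.im_mem U hem u) hw0]
  rw [← heq] at hs
  obtain ⟨z, rfl⟩ := hs
  exact Submodule.smul_mem _ _ (mem_imB.2 ⟨_, rfl⟩)

/-- (1f) -/
theorem Good.contra (U : UniSetup I r A m) {e : ℕ} (hem : e < m) {p : ι → ℂ} (h : Good I A e p)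
    (hN : ∀ u, A ^ m *ᵥ u ≠ 0 → ∀ s ∈ N I (A ^ m *ᵥ u), s ∈ imB A m) : False := by
  obtain ⟨g, l, hg, -, hli, -⟩ := exists_frame U.smooth h.mem h.ne_zero
  -- a linear section of `A ^ m : T_p → im A ^ m`
  let φ : (T I p) →ₗ[ℂ] (imA A m) :=
    ((A ^ m).mulVecLin.comp (T I p).subtype).codRestrict (imA A m) fun v =>
      mem_imA.2 ⟨(v : ι → ℂ), by simp⟩
  have hφ : Function.Surjective φ := by
    rintro ⟨w, hw⟩
    obtain ⟨u, hu⟩ := mem_imA.1 hw
    obtain ⟨v, hv, hvu⟩ := h.surj U hem u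
    refine ⟨⟨v, hv⟩, Subtype.ext ?_⟩
    change A ^ m *ᵥ v = w
    rw [hvu, hu]
  obtain ⟨τ, hτ⟩ := φ.exists_rightInverse_of_surjective (LinearMap.range_eq_top.2 hφ)
  have hτ' : ∀ w : imA A m, A ^ m *ᵥ ((τ w : T I p) : ι → ℂ) = w := by
    intro w
    have h1 := congrArg (fun f => f w) hτ
    exact congrArg Subtype.val h1
  let Ψ : (Fin r → ℂ) →ₗ[ℂ] (imA A m) →ₗ[ℂ] (imB A m) :=
    LinearMap.mk₂ ℂ (fun z w => ⟨((-1 : ℂ) ^ (m + e)) • (Hz g z p (τ w : T I p) ᵥ* A ^ m),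
        Submodule.smul_mem _ _ (mem_imB.2 ⟨_, rfl⟩)⟩)
      (fun z z' w => Subtype.ext (by simp [Hz_add_left, add_vecMul]))
      (fun c z w => Subtype.ext (by simp [Hz_smul_left, smul_vecMul, smul_comm c]))
      (fun z w w' => Subtype.ext (by simp [Hz_add_right, add_vecMul]))
      (fun c z w => Subtype.ext (by simp [Hz_smul_right, smul_vecMul, smul_comm c]))
  have hrk : 1 ≤ Module.finrank ℂ (imA A m) := by
    by_contra hlt
    push Not at hlt
    have h0 : Module.finrank ℂ (imA A m) = 0 := by omega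
    apply U.ne
    have h1 : imA A m = ⊥ := Submodule.finrank_eq_zero.1 h0
    ext i j
    have h2 : A ^ m *ᵥ (Pi.single j 1) ∈ imA A m := mem_imA.2 ⟨_, rfl⟩
    rw [h1, Submodule.mem_bot] at h2
    have h3 := congrFun h2 i
    simpa using h3
  obtain ⟨z, w, hz, hw, hzw⟩ := exists_singular Ψ
    (by rw [Module.finrank_fintype_fun_eq_card, Fintype.card_fin]; exact U.two_le)
    (by rw [finrank_imA, finrank_imB]) hrk
  have hw0 : (w : ι → ℂ) ≠ 0 := fun h0 => hw (Subtype.ext h0)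
  set v : ι → ℂ := ((τ w : T I p) : ι → ℂ) with hv
  have hvT : v ∈ T I p := (τ w).2
  have hAv : A ^ m *ᵥ v = w := hτ' w
  have hψ0 : ((-1 : ℂ) ^ (m + e)) • (Hz g z p v ᵥ* A ^ m) = 0 := congrArg Subtype.val hzw
  have hc : ∀ c : ℂ, A ^ e *ᵥ p + c • (A ^ m *ᵥ v) ∈ cone I := fun c =>
    (h.limit U hem hg 0 hvT c).1
  have hAv0 : A ^ m *ᵥ v ≠ 0 := by rw [hAv]; exact hw0
  have h1 : sz g z p ᵥ* A ^ e ∈ N I (A ^ m *ᵥ v) := by
    refine mem_N_of_line_const U.smooth hAv0 hc fun c hne => ?_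
    have h2 := (h.limit U hem hg z hvT c).2 hne
    rwa [mul_smul, hψ0, smul_zero, add_zero] at h2
  have h2 : sz g z p ᵥ* A ^ e ∈ N I (A ^ e *ᵥ p) :=
    U.cl h.mem (sz_mem hg z p) h.ne h.ker (h.kill U (sz_mem hg z p))
  have h3 := h.c2 _ h2 (imB_anti hem (hN v hAv0 _ h1))
  exact hz (sz_eq_zero hli (h.c1 _ (sz_mem hg z p) h3))

end good

/-- **Section 1**: there is no gap. -/
theorem UniSetup.gap {I : Ideal (MvPolynomial ι ℂ)} {r : ℕ} {A : Matrix ι ι ℂ} {m : ℕ}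
    (U : UniSetup I r A m) {j : ℕ} (hj : 1 ≤ j) (hjm : j ≤ m)
    (hgap : 2 * rk A j + 3 * r ≤ rk A (j - 1)) : False := by
  obtain ⟨e, rfl⟩ : ∃ e, j = e + 1 := ⟨j - 1, by omega⟩
  rw [Nat.add_sub_cancel] at hgap
  have hem : e < m := hjm
  have h2 := U.two_le
  have hM := finrank_kerA A (e + 1)
  have hM' := finrank_kerA A e
  have hB' := finrank_kerB A e
  obtain ⟨P, hP, hPh, hIP, hPK, hdim⟩ := exists_F U.smooth U.dim_le (kerA A (e + 1)) (by omega)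
  have hPI : cone P ⊆ cone I := cone_anti hIP
  have hker : ∀ u ∈ cone P, A ^ (e + 1) *ᵥ u = 0 := fun u hu => mem_kerA.1 (hPK u hu)
  -- (c1)
  obtain ⟨h1, h1P, h1'⟩ := zm U.smooth (by omega) U.nd hP hPh LinearMap.id
    (fun u hu => hPI hu) (kerB A e) (le_dim_of hdim (by
      rw [LinearMap.ker_id, finrank_bot]; omega))
  -- the map `A ^ e`
  have hLe : ∀ u ∈ cone P, (A ^ e).mulVecLin u ∈ cone I := fun u hu =>
    U.cl_cone (hPI hu) (hker u hu)
  have hkerL : Module.finrank ℂ (LinearMap.ker (A ^ e).mulVecLin) + rk A e = Fintype.card ι := hM'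
  -- (c2)
  obtain ⟨h2, h2P, h2'⟩ := zm U.smooth (by omega) U.nd hP hPh (A ^ e).mulVecLin hLe
    (imB A (e + 1)) (le_dim_of hdim (by rw [finrank_imB]; omega))
  have hgood : ∀ p ∈ cone P, eval p h1 ≠ 0 → eval p h2 ≠ 0 → Good I A e p := by
    intro p hp hp1 hp2
    refine ⟨hPI hp, hker p hp, (h2' p hp hp2).1, fun s hs hs0 => ?_, fun s hs hs0 => ?_⟩
    · exact (h1' p hp hp1).2 s hs (mem_kerB.2 hs0)
    · exact (h2' p hp hp2).2 s hs hs0
  -- one good point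
  obtain ⟨p, hp, hp12⟩ := exists_of_not_mem hP
    (fun h => (hP.mem_or_mem h).elim h1P h2P : h1 * h2 ∉ P)
  rw [map_mul] at hp12
  have hpg := hgood p hp (left_ne_zero_of_mul hp12) (right_ne_zero_of_mul hp12)
  refine hpg.contra U hem fun u hu0 s hs => ?_
  -- (c3)
  obtain ⟨h3, h3P, h3'⟩ := zm U.smooth (by omega) U.nd hP hPh (A ^ e).mulVecLin hLe
    (N I (A ^ m *ᵥ u)) (le_dim_of hdim (by
      rw [U.smooth.rank _ (hpg.im_mem U hem u) hu0]; omega))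
  obtain ⟨p', hp', hp'123⟩ := exists_of_not_mem hP
    (fun h => (hP.mem_or_mem h).elim (fun h => (hP.mem_or_mem h).elim h1P h2P) h3P :
      h1 * h2 * h3 ∉ P)
  rw [map_mul, map_mul] at hp'123
  have hg' := hgood p' hp' (left_ne_zero_of_mul (left_ne_zero_of_mul hp'123))
    (right_ne_zero_of_mul (left_ne_zero_of_mul hp'123))
  exact hg'.N_le U hem hu0 (h3' p' hp' (right_ne_zero_of_mul hp'123)).2 hs

end H12.Uni
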